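import Pool.Agent.U866.OM.Stm

/-! Project OM, package INT. -/

set_option autoImplicit false

namespace Pool.Agent.U461.OM

open Pool.Agent.H498R3.GB Pool.Agent.U866.OM
open scoped BigOperators ContDiff Topology Matrix
open MeasureTheory Filter Metric

theorem t_INT : S_INT := by
  intro m f V R hV hf h0
  have hK : IsCompact (closedBall (0 : E m) R) := isCompact_closedBall 0 R
  have htube : ∃ e > 0, ∀ t ∈ Set.Icc (-e) e, ∀ y ∈ closedBall (0 : E m) R, (t, y) ∈ V := by
    obtain ⟨u, v, hu, hv, h0u, hKv, huv⟩ :=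
      generalized_tube_lemma (isCompact_singleton (x := (0:ℝ))) hK hV (by
        rintro ⟨t, y⟩ ⟨ht, hy⟩
        simp only [Set.mem_singleton_iff] at ht
        subst ht
        exact h0 y hy)
    obtain ⟨e, he, hball⟩ := Metric.isOpen_iff.1 hu 0 (h0u rfl)
    refine ⟨e / 2, by positivity, fun t ht y hy => huv ⟨hball ?_, hKv hy⟩⟩
    rw [Metric.mem_ball, Real.dist_eq, sub_zero, abs_lt]
    constructor <;> linarith [ht.1, ht.2]
  obtain ⟨e, he, htube⟩ := htube
  have hev : ∀ᶠ ε in 𝓝[>] (0 : ℝ), ε ∈ Set.Icc (-e) e := by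
    apply nhdsWithin_le_nhds
    exact Icc_mem_nhds (by linarith) he
  refine ⟨hev.mono fun ε hε y hy => htube ε hε y hy, ?_⟩
  have hKK : IsCompact (Set.Icc (-e) e ×ˢ closedBall (0 : E m) R) := isCompact_Icc.prod hK
  obtain ⟨B, hB⟩ := hKK.exists_bound_of_continuousOn (f := f)
    (hf.mono (by rintro ⟨t, y⟩ ⟨ht, hy⟩; exact htube t ht y hy))
  refine tendsto_integral_filter_of_dominated_convergence (fun _ => B) ?_ ?_ ?_ ?_
  · filter_upwards [hev] with ε hε
    apply ContinuousOn.aestronglyMeasurable _ measurableSet_ball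
    apply hf.comp (Continuous.continuousOn (by fun_prop))
    intro y hy
    exact htube ε hε y (ball_subset_closedBall hy)
  · filter_upwards [hev] with ε hε
    filter_upwards [self_mem_ae_restrict measurableSet_ball] with y hy
    exact hB (ε, y) ⟨hε, ball_subset_closedBall hy⟩
  · haveI : IsFiniteMeasure (volume.restrict (ball (0 : E m) R)) :=
      ⟨by rw [Measure.restrict_apply_univ]; exact measure_ball_lt_top⟩
    exact integrable_const B
  · filter_upwards [self_mem_ae_restrict measurableSet_ball] with y hy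
    have hc : ContinuousAt f ((0 : ℝ), y) :=
      hf.continuousAt (hV.mem_nhds (h0 y (ball_subset_closedBall hy)))
    have h1 : Tendsto (fun ε : ℝ => (ε, y)) (𝓝[>] (0 : ℝ)) (𝓝 ((0 : ℝ), y)) := by
      have : Continuous fun ε : ℝ => (ε, y) := by fun_prop
      exact (this.tendsto 0).mono_left nhdsWithin_le_nhds
    exact hc.tendsto.comp h1

end Pool.Agent.U461.OM
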